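import Pool.Agent.H85.LK.Targets

/-!
Board lk_modules, module QID: the quadratic form identity.
-/

set_option autoImplicit false

open MeasureTheory Metric Set ProbabilityTheory

namespace Pool.Agent.H67.LK

open Pool.Agent.H85.LK

/-- Module QID. -/
theorem pf_QID (hHK : T_HK) (hINT : T_INT) : T_QID := by
  intro N s A v hs hA hAb hv
  obtain ⟨_, _, _, hk1, _⟩ := hHK N s hs
  obtain ⟨i1, i2, i3, _, _, _, _, _, _, _, _⟩ := hINT N s A v v hs hA hAb hv hv
  have hexp : (fun p : E N × E N => hk N s (p.1 - p.2) * (v p.1 - v p.2) ^ 2) =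
      fun p : E N × E N => hk N s (p.1 - p.2) * v p.1 ^ 2 + hk N s (p.1 - p.2) * v p.2 ^ 2 -
        2 * (hk N s (p.1 - p.2) * (v p.1 * v p.2)) := by
    funext p
    ring
  have hint : Integrable (fun p : E N × E N => hk N s (p.1 - p.2) * (v p.1 - v p.2) ^ 2)
      (volume.prod volume) := by
    rw [hexp]
    exact (i2.add i3).sub (i1.const_mul 2)
  refine ⟨hint, ?_⟩
  have e1 : ∫ p : E N × E N, hk N s (p.1 - p.2) * v p.1 ^ 2 ∂(volume.prod volume) =
      ∫ x, v x ^ 2 := by
    rw [integral_prod _ i2]
    refine integral_congr_ae (Filter.Eventually.of_forall fun x => ?_)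
    simp only
    rw [integral_mul_const, integral_sub_left_eq_self (hk N s) volume x, hk1, one_mul]
  have e2 : ∫ p : E N × E N, hk N s (p.1 - p.2) * v p.2 ^ 2 ∂(volume.prod volume) =
      ∫ x, v x ^ 2 := by
    rw [integral_prod_symm _ i3]
    refine integral_congr_ae (Filter.Eventually.of_forall fun y => ?_)
    simp only
    rw [integral_mul_const, integral_sub_right_eq_self (hk N s) y, hk1, one_mul]
  have e3 : ∫ p : E N × E N, hk N s (p.1 - p.2) * (v p.1 * v p.2) ∂(volume.prod volume) =
      Qf N s v := by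
    rw [integral_prod _ i1]
    unfold Qf sm
    refine integral_congr_ae (Filter.Eventually.of_forall fun x => ?_)
    simp only
    rw [← integral_const_mul]
    refine integral_congr_ae (Filter.Eventually.of_forall fun y => ?_)
    simp only
    ring
  have i23 : Integrable (fun p : E N × E N => hk N s (p.1 - p.2) * v p.1 ^ 2 +
      hk N s (p.1 - p.2) * v p.2 ^ 2) (volume.prod volume) := i2.add i3
  rw [hexp, integral_sub i23 (i1.const_mul 2), integral_add i2 i3, integral_const_mul,
    e1, e2, e3]
  ring

end Pool.Agent.H67.LK
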